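import Mathlib
import Pool.Agent.H.MP_a6f858_co.A

set_option autoImplicit false

namespace Pool.Agent.H.MP_b67a76_co

open Set Submodule Module Matroid Pool.Agent.H.MP_5d01ce_co Pool.Agent.H.MP_a6f858_co

abbrev W (m : ℕ) := Fin m → ZMod 2
abbrev El (m : ℕ) := W m ⊕ Option (Fin m)

variable {m : ℕ} {M : Matroid (El m)}

def v (m : ℕ) : El m → W m × ZMod 2
  | .inl w => (w, 1)
  | .inr (some i) => (Pi.single i 1, 0)
  | .inr none => (∑ i, Pi.single i 1, 0)

theorem lin0 {U : Type} [AddCommGroup U] [Module (ZMod 2) U] (φ : W m × ZMod 2 →ₗ[ZMod 2] U)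
    (h : ∀ i, φ (Pi.single i 1, 0) = 0) (w : W m) : φ (w, 0) = 0 :=
  congrArg (· w) (show φ ∘ₗ LinearMap.inl _ _ _ = 0 from LinearMap.pi_ext' fun i =>
    LinearMap.ext_ring (h i))

theorem lin1 {U : Type} [AddCommGroup U] [Module (ZMod 2) U] (φ : W m × ZMod 2 →ₗ[ZMod 2] U)
    (h : ∀ w, φ (w, 0) = 0) (w : W m) (h1 : φ (w, 1) = 0) : φ = 0 := by
  refine LinearMap.ext fun ⟨x, c⟩ => ?_
  rw [show (x, c) = (x - c • w, 0) + c • (w, 1) by simp, map_add, map_smul, h, h1]
  simp

theorem base (hE : M.E = univ) (r : Rp (ZMod 2) M (v m)) : ∀ h ∈ range Sum.inr,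
    ∀ f ∈ M.E \ range Sum.inr, M.IsBase (insert f (range Sum.inr \ {h})) := by
  classical
  rintro _ ⟨h, rfl⟩ (w | f) hf
  swap
  · exact absurd ⟨f, rfl⟩ hf.2
  set B : Set (El m) := insert (.inl w) (range Sum.inr \ {.inr h})
  have t : span (ZMod 2) (v m '' B) = ⊤ := by
    set S := span (ZMod 2) (v m '' B)
    have a : ∀ j, j ≠ h → S.mkQ (v m (.inr j)) = 0 := fun j hj =>
      (Submodule.Quotient.mk_eq_zero _).2 (subset_span ⟨_, Or.inr ⟨⟨j, rfl⟩, by simpa using hj⟩, rfl⟩)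
    rw [← ker_mkQ S, lin1 S.mkQ (lin0 _ fun i => ?_) w
      ((Submodule.Quotient.mk_eq_zero _).2 (subset_span ⟨_, Or.inl rfl, rfl⟩)), LinearMap.ker_zero]
    by_cases q : some i = h
    · have b := a none (by rw [← q]; simp)
      have e : v m (.inr none) = ∑ j, v m (.inr (some j)) := by
        ext <;> simp [v, Prod.fst_sum, Prod.snd_sum]
      rwa [e, map_sum, Finset.sum_eq_single i (fun j _ p => a _ (by rw [← q]; simpa using p))
        (by simp)] at b
    · exact a _ q
  have c : B.ncard = m + 1 := by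
    rw [ncard_insert_of_notMem (by simp), ncard_sdiff_singleton_of_mem (mem_range_self _),
      ncard_range_of_injective Sum.inr_injective]
    simp
  refine Indep.isBase_of_ground_subset_closure ?_ fun e he => ?_
  · rw [indep_iff_eRk_eq_encard_of_finite (toFinite _), r.rk (toFinite _) (hE ▸ subset_univ _), t,
      ← (toFinite B).cast_ncard_eq, c]
    simp
  · rw [r.cl (hE ▸ subset_univ _) he, t]
    trivial

theorem round (hE : M.E = univ) (r : Rp (ZMod 2) M (v m)) {X Y : Set (El m)} (h : X ∪ Y = univ) :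
    M.Spanning X ∨ M.Spanning Y := by
  have k : ∀ X : Set (El m), ¬ M.Spanning X → ∃ φ : W m × ZMod 2 →ₗ[ZMod 2] ZMod 2, φ ≠ 0 ∧
      ∀ e ∈ X, φ (v m e) = 0 := by
    intro X hX
    obtain ⟨φ, a, b⟩ := (span (ZMod 2) (v m '' X)).exists_le_ker_of_lt_top (lt_top_iff_ne_top.2
      fun q => hX ((spanning_iff_ground_subset_closure (hE ▸ subset_univ _)).2 fun e he => by
        rw [r.cl (hE ▸ subset_univ _) he, q]; trivial))
    exact ⟨φ, a, fun e he => b (subset_span ⟨e, he, rfl⟩)⟩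
  by_contra q
  push Not at q
  obtain ⟨φ, a1, a2⟩ := k X q.1
  obtain ⟨ψ, b1, b2⟩ := k Y q.2
  have z : ∀ e, φ (v m e) * ψ (v m e) = 0 := fun e =>
    mul_eq_zero.2 ((show e ∈ X ∪ Y from h ▸ mem_univ e).imp (a2 e) (b2 e))
  obtain ⟨w, hw⟩ : ∃ w, ψ (w, 1) ≠ 0 := by
    by_contra p
    push Not at p
    refine b1 (lin1 ψ (fun w => ?_) 0 (p 0))
    rw [show ((w, 0) : W m × ZMod 2) = (w, 1) - (0, 1) by simp, map_sub, p, p, sub_zero]
  have z1 : φ (w, 1) = 0 := (mul_eq_zero.1 (z (.inl w))).resolve_right hw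
  refine a1 (lin1 φ (lin0 φ fun i => ?_) w z1)
  have z2 := z (.inl (w + Pi.single i 1))
  have z3 := z (.inr (some i))
  simp only [v] at z2 z3
  rw [show ((w + Pi.single i 1, 1) : W m × ZMod 2) = (w, 1) + (Pi.single i 1, 0) by simp, map_add,
    map_add, z1, zero_add, mul_add, z3, add_zero] at z2
  exact (mul_eq_zero.1 z2).resolve_right hw

theorem main (hm : 0 < m) : ∃ K : Matroid (El m),
    (∀ X Y : Set (El m), X ⊆ K.E → Y ⊆ K.E → X ∪ Y = K.E → K.Spanning X ∨ K.Spanning Y) ∧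
    (∃ N : Matroid (El m), Matroid.IsMinor N K ∧
      ∃ g : El m → Projectivization (ZMod 2) (W m), Set.BijOn g N.E Set.univ ∧
        ∀ I : Set (El m), N.Indep I ↔
          (I ⊆ N.E ∧ LinearIndependent (ZMod 2) (fun x : I => (g (x : El m)).rep))) ∧
    (¬ ∃ N : Matroid (El m), Matroid.IsMinor N K ∧ N.E.ncard = 2 ^ 2 + 1 ∧
      ∀ I : Set (El m), I ⊆ N.E → (N.Indep I ↔ I.ncard ≤ 2)) ∧
    ¬ ∃ (n : ℕ) (u : El m → Fin n → ZMod 2), ∀ I : Set (El m),
      K.Indep I ↔ (I ⊆ K.E ∧ LinearIndependent (ZMod 2) (fun x : I => u (x : El m))) := by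
  classical
  obtain ⟨M, hE, r⟩ := vm (ZMod 2) (v m) finite_univ
  have nm : ∀ w, Sum.inl w ∈ M.E \ range Sum.inr := fun w => by simp [hE]
  have b0 := base hE r _ (mem_range_self none) _ (nm 0)
  obtain ⟨K, hK, hI⟩ := relax (toFinite _) (hE ▸ subset_univ _) (base hE r)
    (mem_range_self none) (nm 0)
  have nl : ∀ c ∈ M.E \ range Sum.inr, M.Indep {c} := fun c hc =>
    (base hE r _ (mem_range_self none) c hc).indep.subset (by simp)
  have bH : K.IsBase (range Sum.inr) := ((hI _).2 (Or.inr rfl)).isBase_of_forall_insert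
    fun e he q => by
      rcases (hI _).1 q with q | q
      · have := (base hE r _ (mem_range_self none) e (hK ▸ he)).eq_of_subset_indep q
          (insert_subset_insert sdiff_subset)
        have t : Sum.inr none ∈ insert e (range Sum.inr) := Or.inr (mem_range_self _)
        rcases this ▸ t with t | t
        · exact he.2 (t ▸ mem_range_self _)
        · exact t.2 rfl
      · exact he.2 (q ▸ mem_insert _ _)
  have w0 : (Pi.single ⟨0, hm⟩ 1 : W m) ≠ 0 := by simp
  refine ⟨K, fun X Y _ _ h => ?_, ?_, ?_, ?_⟩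
  · have k : ∀ X, M.Spanning X → K.Spanning X := fun X h => by
      obtain ⟨B, a, b⟩ := h.exists_isBase_subset
      have i := (hI B).2 (Or.inl a.indep)
      refine (i.isBase_of_eRk_ge (toFinite _) ?_).spanning.superset b (hK ▸ h.subset_ground)
      rw [i.eRk_eq_encard, a.encard_eq_eRank, ← b0.encard_eq_eRank, ← bH.encard_eq_eRank,
        encard_insert_of_notMem (by simp), encard_sdiff_singleton_add_one (mem_range_self _)]
    exact (round hE r (h.trans (hK.trans hE))).imp (k X) (k Y)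
  · let g : El m → Projectivization (ZMod 2) (W m) := fun e =>
      if h : (v m e).1 ≠ 0 then .mk _ _ h else .mk _ _ w0
    have g1 : ∀ e, (v m e).1 ≠ 0 → (g e).rep = (v m e).1 := fun e h => by
      obtain ⟨a, ha⟩ := Projectivization.exists_smul_eq_mk_rep (ZMod 2) _ h
      simp only [g, dif_pos h]
      rw [← ha, Subsingleton.elim a 1, one_smul]
    have r1 := r.minor (C := {.inl 0}) (hE ▸ subset_univ _) (range Sum.inr) (LinearMap.fst _ _ _) (by
      ext ⟨x, c⟩
      simp [v, mem_span_singleton, eq_comm])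
    rw [← caseA hK hI nl (C := {.inl 0}) (D := range Sum.inr) (hE ▸ subset_univ _) (by simp)
      (Or.inr ⟨_, rfl, by simp⟩)] at r1
    have e1 : ∀ e, e ∈ (K ／ {.inl 0} ＼ range Sum.inr).E ↔ ∃ w, w ≠ 0 ∧ e = .inl w := by
      rintro (w | i) <;> simp [hK, hE]
    refine ⟨_, contract_delete_isMinor K {.inl 0} (range Sum.inr), g, ⟨fun _ _ => trivial, ?_, ?_⟩,
      fun I => ?_⟩
    · intro a ha b hb q
      obtain ⟨a, a1, rfl⟩ := (e1 a).1 ha
      obtain ⟨b, b1, rfl⟩ := (e1 b).1 hb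
      exact congrArg _ ((g1 (.inl a) a1).symm.trans (q ▸ g1 (.inl b) b1))
    · intro p _
      refine ⟨.inl p.rep, (e1 _).2 ⟨_, p.rep_nonzero, rfl⟩, ?_⟩
      simp [g, v, p.rep_nonzero]
    · rw [← and_iff_right_of_imp Indep.subset_ground]
      refine and_congr_right fun s => (r1 I s).trans (linearIndepOn_congr (w := fun e => (g e).rep)
        fun e he => ?_)
      obtain ⟨a, a1, rfl⟩ := (e1 e).1 (s he)
      exact (g1 (.inl a) a1).symm
  · rintro ⟨N, a, b, c⟩
    obtain ⟨C, D, hC, -, hd, rfl⟩ := a.exists_eq_contract_delete_disjoint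
    obtain ⟨x0, h0⟩ := nonempty_of_ncard_ne_zero (s := (K ／ C ＼ D).E) (by omega)
    obtain ⟨x, x1, x2⟩ : ∃ x ∈ (K ／ C ＼ D).E, (∃ h ∈ D ∪ {x}, h ∈ range Sum.inr) ∨
        ∃ c ∈ C, c ∉ range Sum.inr := by
      by_contra q
      push Not at q
      have : C = range Sum.inr := Subset.antisymm (q x0 h0).2 fun e he => by
        by_contra p
        exact (q e ⟨⟨bH.subset_ground he, p⟩, fun t => (q x0 h0).1 e (Or.inl t) he⟩).1 e
          (Or.inr rfl) he
      have i := ((c {x0} (singleton_subset_iff.2 h0)).2 (by simp)).of_delete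
      rw [this, bH.indep.contract_indep_iff] at i
      exact disjoint_singleton_left.1 i.1 (bH.eq_of_subset_indep i.2 subset_union_right ▸ Or.inl rfl)
    have r1 := r.minor (hK ▸ hC) (D ∪ {x}) _ (ker_mkQ _)
    rw [← caseA hK hI nl (hK ▸ hC) (disjoint_union_right.2 ⟨hd, disjoint_singleton_right.2 x1.1.2⟩)
      x2, ← delete_delete] at r1
    refine no24 r1 (by rw [delete_ground, ncard_sdiff_singleton_of_mem x1, b]; rfl) fun I s => ?_
    rw [delete_indep_iff, c I (s.trans sdiff_subset),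
      and_iff_left (disjoint_left.2 fun e he => (s he).2)]
  · rintro ⟨n, u, hu⟩
    have ru : Rp (ZMod 2) K u := fun I s => (hu I).trans (and_iff_right s)
    obtain ⟨B, hB⟩ : ∃ B : Finset (El m), (B : Set (El m)) = range Sum.inr :=
      ⟨_, (toFinite _).coe_toFinset⟩
    have k : ∀ w, ∀ h ∈ B, K.Indep (insert (.inl w) (B \ {h})) := fun w h hh =>
      hB ▸ (hI _).2 (Or.inl (base hE r h (hB ▸ hh) _ (nm w)).indep)
    have := caseAux ru (hB ▸ bH) (hB ▸ hK ▸ nm 0) (hB ▸ hK ▸ nm (Pi.single ⟨0, hm⟩ 1)) (k _) (k _)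
    have i : K.Indep {.inl 0, .inl (Pi.single ⟨0, hm⟩ 1)} := by
      refine (hI _).2 (Or.inl ((r _ (hE ▸ subset_univ _)).2 ?_))
      rw [linearIndepOn_insert (by simpa using w0.symm), image_singleton, mem_span_singleton]
      refine ⟨by simp [v], ?_⟩
      rintro ⟨c, hc⟩
      simp only [v, Prod.smul_mk, Prod.mk.injEq, smul_eq_mul, mul_one] at hc
      rw [hc.2, one_smul] at hc
      exact w0 hc.1
    exact w0.symm (Sum.inl_injective
      (((ru _ i.subset_ground).1 i).injOn (by simp) (by simp) this))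

end Pool.Agent.H.MP_b67a76_co
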